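import Pool.Agent.C4K.StNum

/-!
Squad c4k, module NU1: numbers, first part.
-/

set_option autoImplicit false

namespace Pool.Agent.C4K.H24

open Pool.Agent.C4K

theorem hundred {k : ℝ} (hk : 10000 ≤ k) {x y : ℝ} (h : x + 1 / 2 ≤ y) :
    100 * k ^ x ≤ k ^ y := by
  have hk0 : 0 < k := by linarith
  have hk1 : 1 ≤ k := by linarith
  have h1 : (100 : ℝ) ≤ k ^ (1 / 2 : ℝ) := by
    rw [← Real.sqrt_eq_rpow]
    apply Real.le_sqrt_of_sq_le
    norm_num
    exact hk
  calc 100 * k ^ x ≤ k ^ (1 / 2 : ℝ) * k ^ x := by gcongr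
    _ = k ^ (1 / 2 + x) := by rw [← Real.rpow_add hk0]
    _ ≤ k ^ y := Real.rpow_le_rpow_of_exponent_le hk1 (by linarith)

theorem kex_mono (a : ℕ) (ha : a < 11) : kex a ≤ kex (a + 1) := by
  interval_cases a <;> norm_num [kex]

theorem nu1 : NU1Stmt := by
  refine ⟨10000, ?_⟩
  intro k n s eps hk h
  obtain ⟨-, -, hs1, -, he0, he1⟩ := h
  have hk0 : 0 < k := by linarith
  have hk1 : 1 ≤ k := by linarith
  have hpos : ∀ x : ℝ, 0 < k ^ x := fun x => Real.rpow_pos_of_pos hk0 x
  have hge1 : ∀ x : ℝ, 0 ≤ x → 1 ≤ k ^ x := fun x hx => Real.one_le_rpow hk1 hx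
  have hT : (kT k : ℝ) ≤ k ^ (0.476 : ℝ) := Nat.floor_le (hpos _).le
  have hT0 : (0 : ℝ) ≤ kT k := Nat.cast_nonneg _
  have hT1 : 1 ≤ kT k := by
    rw [kT, Nat.one_le_floor_iff]
    exact hge1 _ (by norm_num)
  have hs : 1 ≤ s := (hge1 _ (by norm_num)).trans hs1
  have hs0 : 0 < s := by linarith
  have he : eps ≤ 1 / 10 := by
    have h1 := hge1 0.476 (by norm_num)
    nlinarith
  have heT : eps * (kT k : ℝ) ≤ 1 / 10 := (mul_le_mul_of_nonneg_left hT he0).trans he1
  have hd : s ≤ kd s eps := by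
    rw [kd]
    nlinarith
  have hd0 : 0 < kd s eps := by linarith
  have hr0 : 0 < kr k := hpos _
  have hr2 : 2 * kr k ≤ 1 := by
    have h1 := hundred hk (x := -0.53) (y := 0) (by norm_num)
    rw [Real.rpow_zero] at h1
    rw [kr]
    linarith [hpos (-0.53)]
  have hz0 : 0 < kz k := by
    rw [kz]
    positivity
  have hzr : ((kT k : ℝ) + 1) * kz k = kr k := by
    rw [kz]
    field_simp
  have hzle : kz k ≤ kr k := by nlinarith
  have hsT : 0 < s ^ kT k := by positivity
  have hsT1 : 1 ≤ s ^ kT k := one_le_pow₀ hs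
  have hp0 : 0 < kp k s := by
    rw [kp]
    positivity
  have hps : kp k s * s ^ kT k = kz k := by
    rw [kp]
    field_simp
  have hL0 : ((kL0 k / kL1 k : ℕ) : ℝ) ≤ k ^ (0.539 : ℝ) := by
    have h1 : ((kL0 k / kL1 k : ℕ) : ℝ) ≤ (kL0 k : ℝ) := by exact_mod_cast Nat.div_le_self _ _
    refine h1.trans ?_
    have h2 : (kL0 k : ℝ) < k ^ (0.539 : ℝ) / 4 + 1 := Nat.ceil_lt_add_one (by have := hpos 0.539; positivity)
    have h3 := hundred hk (x := 0) (y := 0.539) (by norm_num)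
    rw [Real.rpow_zero] at h3
    linarith
  have hLL0 : (0 : ℝ) ≤ ((kL0 k / kL1 k : ℕ) : ℝ) := Nat.cast_nonneg _
  refine
    { T1 := hT1
      Td := ?_
      d1 := by linarith
      p0 := hp0
      ph := ?_
      pd := ?_
      z0 := hz0
      zr := hzr
      r1 := hr2
      s0 := ?_
      low := ?_
      h1 := ?_
      h2 := ?_
      L1 := ?_
      L := ?_
      TL := ?_
      mono := ?_
      tau1 := ?_ }
  · have h1 := hundred hk (x := 0.476) (y := 0.99) (by norm_num)
    linarith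
  · have h1 : kp k s ≤ kz k := by rw [← hps]; nlinarith
    linarith
  · have h1 : (1 + eps) ^ kT k ≤ 2 := by
      have h2 : (1 + eps) ^ kT k ≤ Real.exp (eps * kT k) := by
        rw [mul_comm, Real.exp_nat_mul]
        exact pow_le_pow_left₀ (by linarith) (by linarith [Real.add_one_le_exp eps]) _
      refine h2.trans ?_
      have h3 : Real.exp (eps * kT k) ≤ Real.exp (1 / 10) := Real.exp_le_exp.2 heT
      have h4 : Real.exp (1 / 10) ≤ 2 := by
        have h5 := Real.exp_one_lt_d9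
        have h6 : Real.exp (1 / 10) ^ 10 = Real.exp 1 := by
          rw [← Real.exp_nat_mul]
          norm_num
        by_contra hcon
        push Not at hcon
        have h7 : (2 : ℝ) ^ 10 < Real.exp (1 / 10) ^ 10 := by gcongr
        rw [h6] at h7
        norm_num at h7
        linarith
      linarith
    have h2 : kp k s * kd s eps ^ kT k = kz k * (1 + eps) ^ kT k := by
      rw [kd, mul_pow, ← hps]
      ring
    rw [h2]
    nlinarith
  · rw [ks1]
    apply mul_nonneg _ hs0.le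
    linarith
  · have h2 : kp k s * ks1 s eps ^ kT k = kz k * (1 - eps) ^ kT k := by
      rw [ks1, mul_pow, ← hps]
      ring
    rw [h2]
    have h3 := one_add_mul_le_pow (a := -eps) (by linarith) (kT k)
    have h4 : (9 : ℝ) / 10 ≤ (1 - eps) ^ kT k := by
      rw [← sub_eq_add_neg] at h3
      refine le_trans ?_ h3
      nlinarith
    nlinarith
  · have h1 : Real.sqrt ((kL0 k / kL1 k : ℕ) : ℝ) ≤ k ^ (0.2695 : ℝ) := by
      rw [Real.sqrt_le_left (hpos _).le]
      refine hL0.trans (le_of_eq ?_)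
      rw [← Real.rpow_natCast, ← Real.rpow_mul hk0.le]
      norm_num
    have h2 := hundred hk (x := 0.2695) (y := 0.99) (by norm_num)
    linarith
  · have h1 : (kT k : ℝ) * ((kL0 k / kL1 k : ℕ) : ℝ) ≤ k ^ (1.015 : ℝ) := by
      calc (kT k : ℝ) * ((kL0 k / kL1 k : ℕ) : ℝ) ≤ k ^ (0.476 : ℝ) * k ^ (0.539 : ℝ) :=
            mul_le_mul hT hL0 hLL0 (hpos _).le
        _ = k ^ (1.015 : ℝ) := by rw [← Real.rpow_add hk0]; norm_num
    have h2 := hundred hk (x := 1.015) (y := 1.98) (by norm_num)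
    have h3 : k ^ (1.98 : ℝ) ≤ kd s eps ^ 2 := by
      have h4 : k ^ (1.98 : ℝ) = (k ^ (0.99 : ℝ)) ^ 2 := by
        rw [← Real.rpow_natCast (k ^ (0.99 : ℝ)), ← Real.rpow_mul hk0.le]
        norm_num
      rw [h4]
      exact pow_le_pow_left₀ (hpos _).le (hs1.trans hd) 2
    nlinarith
  · rw [kL1, Nat.one_le_floor_iff]
    exact hge1 _ (by norm_num)
  · rw [kL, kτ, Nat.one_le_ceil_iff]
    exact hpos _
  · have h1 : (kT k : ℝ) ≤ (kL k : ℝ) := by
      refine hT.trans ?_
      rw [kL, kτ]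
      refine le_trans ?_ (Nat.le_ceil _)
      apply Real.rpow_le_rpow_of_exponent_le hk1
      norm_num [kex]
    exact_mod_cast h1
  · intro a ha
    rw [kτ, kτ]
    exact Nat.ceil_le_ceil (Real.rpow_le_rpow_of_exponent_le hk1 (kex_mono a ha))
  · intro a
    rw [kτ, Nat.one_le_ceil_iff]
    exact hpos _

end Pool.Agent.C4K.H24
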